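import Pool.Agent.Q110.RT.Bdd

set_option autoImplicit false

/-!
# Retracts via commuting closure and anticlosure operators

`PropC P` is property (C) of the problem file, `PropC' P` is the same property without the
requirement `φ ∘ ω = ω ∘ φ` (the three equalities are kept). `IsLat P`, `IsModLat P`: the poset `P`
is a lattice, a modular lattice. `ChainSup P`, `ChainInf P`: every nonempty chain of `P` has a
supremum, an infimum. `NoIncr P`, `NoDecr P`: no strictly increasing sequence is bounded above, no
strictly decreasing sequence is bounded below.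
-/

namespace Pool.Agent.Results.MP_017791_co.ModularLattices

open Pool.Agent.Q110.RT

universe u

theorem chainSup_of_finite (P : Type u) [PartialOrder P] [Finite P] : ChainSup P := by
  intro c hc hne
  obtain ⟨m, hm⟩ := (Set.toFinite c).exists_maximal hne
  refine ⟨m, ?_, fun z hz => hz hm.1⟩
  intro y hy
  by_cases hym : y = m
  · exact hym.le
  · rcases hc hy hm.1 hym with h | h
    · exact h
    · exact hm.2 hy h

theorem chainInf_of_finite (P : Type u) [PartialOrder P] [Finite P] : ChainInf P := by
  intro c hc hne
  obtain ⟨m, hm⟩ := (Set.toFinite c).exists_minimal hne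
  refine ⟨m, ?_, fun z hz => hz hm.1⟩
  intro y hy
  by_cases hym : y = m
  · exact hym.ge
  · rcases hc hy hm.1 hym with h | h
    · exact hm.2 hy h
    · exact h

theorem iff_mod (P : Type u) [PartialOrder P] (h1 : ChainSup P ∨ NoIncr P)
    (h2 : ChainInf P ∨ NoDecr P) : PropC P ↔ IsModLat P := by
  constructor
  · exact isModLat_of_propC
  · intro h
    letI : Lattice P := mkLattice h.1
    have hm : IsModularLattice P := modular_of_isModLat h
    rcases isEmpty_or_nonempty P with he | hne
    · intro R hR
      exact (he.false hR.some).elim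
    · refine propC_of_modular ?_ h2
      rcases h1 with h1 | h1
      · exact Or.inl (exists_top h1)
      · exact Or.inr h1

theorem iff_lat (P : Type u) [PartialOrder P] (h1 : ChainSup P) (h2 : ChainInf P) :
    PropC' P ↔ IsLat P := by
  constructor
  · exact isLat_of_propC'
  · intro h
    letI : Lattice P := mkLattice h
    exact propC'_of_complete h2 h1

theorem result :
    -- necessary conditions, for every poset
    (∀ (P : Type u) [PartialOrder P], PropC P → IsModLat P) ∧
    (∀ (P : Type u) [PartialOrder P], PropC' P → IsLat P) ∧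
    -- classifications
    (∀ (P : Type u) [PartialOrder P], (ChainSup P ∨ NoIncr P) → (ChainInf P ∨ NoDecr P) →
      (PropC P ↔ IsModLat P)) ∧
    (∀ (P : Type u) [PartialOrder P], ChainSup P → ChainInf P → (PropC' P ↔ IsLat P)) ∧
    (∀ (P : Type u) [PartialOrder P] [Finite P],
      (PropC P ↔ IsModLat P) ∧ (PropC' P ↔ IsLat P)) ∧
    (∀ (L : Type u) [CompleteLattice L], PropC L ↔ IsModularLattice L) ∧
    -- chains
    (∀ (P : Type u) [LinearOrder P], PropC P) ∧
    -- modular lattices that fail, one of them bounded
    (IsModLat (ℕ × Set ℕ) ∧ ¬ PropC' (ℕ × Set ℕ)) ∧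
    (∃ (P : Type) (_ : PartialOrder P), IsModLat P ∧ (∃ t : P, ∀ y, y ≤ t) ∧
      (∃ b : P, ∀ y, b ≤ y) ∧ ¬ PropC' P) := by
  refine ⟨fun P _ h => isModLat_of_propC h, fun P _ h => isLat_of_propC' h,
    fun P _ h1 h2 => iff_mod P h1 h2, fun P _ h1 h2 => iff_lat P h1 h2,
    fun P _ _ => ⟨iff_mod P (Or.inl (chainSup_of_finite P)) (Or.inl (chainInf_of_finite P)),
      iff_lat P (chainSup_of_finite P) (chainInf_of_finite P)⟩, ?_,
    fun P _ => propC_of_linear, ⟨isModLat_of_modular, ex_fails⟩,
    ⟨Y, inferInstance, Y_modular, Y_bounded.1, Y_bounded.2, Y_fails⟩⟩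
  intro L _
  have h1 : ChainSup L := fun c _ _ => ⟨sSup c, isLUB_sSup c⟩
  have h2 : ChainInf L := fun c _ _ => ⟨sInf c, isGLB_sInf c⟩
  rw [iff_mod L (Or.inl h1) (Or.inl h2)]
  exact ⟨fun h => modular_of_isModLat h, fun h => isModLat_of_modular⟩

end Pool.Agent.Results.MP_017791_co.ModularLattices
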